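import Pool.Agent.Q45.ML.EC

/-!
# Rationality of `L(1, A)/Ω(A)` over number fields: value, non-vanishing and denominators from point counts

Let `K` be a number field, `A` a Weierstrass curve over `K`, `L(s, A) = ∏_v (1 - a_v q_v^{-s} + e_v q_v^{-2s})⁻¹` its
Hasse-Weil `L`-series (all finite places) and `F` a function which continues it, meromorphic at the real points of
`[1, 2]` and analytic at `1`. With the roots `α_v, β_v` of `X² - a_v X + e_v` and `γ > π/2` put

`S(T) = ∑_v ∑_{k ≥ 1} (α_v^k + β_v^k)/(k q_v^k) e^{iγ k log q_v/T} / Γ(1 + k log q_v/T)`.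

Then `exp S(T) = F(1) + O(1/T)`. For a period `Ω ≠ 0` and an integer `D ≥ 1`, `D F(1)/Ω` is an integer if and only
if the distance of `D exp S(T)/Ω` from the integers tends to `0` along one sequence `T → ∞`.
-/

set_option autoImplicit false

namespace Pool.Agent.Results.MP_90f827_nt.CentralValueDenominators

open IsDedekindDomain NumberField Filter Topology Asymptotics Pool.Agent.W189.NF

variable {K : Type} [Field K] [NumberField K]

/-- `F` continues the `L`-series of `A` (`Re s > 2`) and is meromorphic at every point of `[1, 2]`. -/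
def IsContinuation (A : WeierstrassCurve K) (F : ℂ → ℂ) : Prop :=
  (∀ x : ℝ, 1 ≤ x → x ≤ 2 → MeromorphicAt F (x : ℂ)) ∧ ∀ s : ℂ, 2 < s.re → F s = A.LSeries s

/-- the term at `(v, k)`, `k = x.2 + 1`, of the smoothed sum (see `ecTerm`) -/
noncomputable def term (A : WeierstrassCurve K) (γ T : ℝ) (x : HeightOneSpectrum (𝓞 K) × ℕ) : ℂ :=
  Pool.Agent.Q45.ML.ecTerm A γ T x

/-- the smoothed sum -/
noncomputable def S (A : WeierstrassCurve K) (γ T : ℝ) : ℂ := ∑' x, term A γ T x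

/-- the distance of a complex number from the integers -/
noncomputable def distInt (z : ℂ) : ℝ := Metric.infDist z (Set.range fun a : ℤ => (a : ℂ))

theorem closed_int : IsClosed (Set.range fun a : ℤ => (a : ℂ)) :=
  Complex.isClosedEmbedding_intCast.isClosed_range

theorem result (A : WeierstrassCurve K) (F : ℂ → ℂ) (hF : IsContinuation A F) (h1 : AnalyticAt ℂ F 1)
    (Ω : ℝ) (hΩ : Ω ≠ 0) {γ : ℝ} (hγ : Real.pi / 2 < γ) :
    (∀ T : ℝ, 0 < T → Summable fun x => ‖term A γ T x‖) ∧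
    (fun T : ℝ => Complex.exp (S A γ T) - F 1) =O[atTop] (fun T : ℝ => 1 / T) ∧
    List.TFAE [F 1 = 0, Tendsto (fun T : ℝ => (S A γ T).re) atTop atBot,
      ∃ t : ℕ → ℝ, Tendsto t atTop atTop ∧ Tendsto (fun i => (S A γ (t i)).re) atTop atBot] ∧
    (∀ D : ℕ, 0 < D → List.TFAE [
      ∃ a : ℤ, D * (F 1 / Ω) = a,
      Tendsto (fun T : ℝ => distInt (D * (Complex.exp (S A γ T) / Ω))) atTop (𝓝 0),
      ∃ t : ℕ → ℝ, Tendsto t atTop atTop ∧
        Tendsto (fun i => distInt (D * (Complex.exp (S A γ (t i)) / Ω))) atTop (𝓝 0)]) ∧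
    ((F 1 ≠ 0 ∧ ∃ x : ℚ, F 1 = x * Ω) ↔ (¬ Tendsto (fun T : ℝ => (S A γ T).re) atTop atBot) ∧
      ∃ D : ℕ, 0 < D ∧ ∃ t : ℕ → ℝ, Tendsto t atTop atTop ∧
        Tendsto (fun i => distInt (D * (Complex.exp (S A γ (t i)) / Ω))) atTop (𝓝 0)) := by
  have hΩc : (Ω : ℂ) ≠ 0 := by exact_mod_cast hΩ
  have hF' : IsCont A F := hF
  obtain ⟨m, r, g1, g2, -, g4⟩ := Pool.Agent.Q45.ML.ec_law hF' hγ
  have hA : AnalyticAt ℂ F ((1 : ℝ) : ℂ) := by rw [Complex.ofReal_one]; exact h1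
  have hval := Pool.Agent.Q45.ML.value_rate hA g1 g2 g4
  rw [Complex.ofReal_one] at hval
  have hvalS : (fun T : ℝ => Complex.exp (S A γ T) - F 1) =O[atTop] (fun T : ℝ => 1 / T) := hval
  have hlim0 := Pool.Agent.Q45.ML.tendsto_of_rate hvalS
  have hlim : ∀ D : ℕ, Tendsto (fun T : ℝ => (D : ℂ) * (Complex.exp (S A γ T) / Ω)) atTop
      (𝓝 (D * (F 1 / Ω))) := fun D => (hlim0.div_const (Ω : ℂ)).const_mul _
  have hvan : List.TFAE [F 1 = 0, Tendsto (fun T : ℝ => (S A γ T).re) atTop atBot,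
      ∃ t : ℕ → ℝ, Tendsto t atTop atTop ∧ Tendsto (fun i => (S A γ (t i)).re) atTop atBot] := by
    have hl : Tendsto (fun T : ℝ => Real.exp (S A γ T).re) atTop (𝓝 ‖F 1‖) := by
      have h5 := hlim0.norm
      simpa [Complex.norm_exp] using h5
    tfae_have 1 → 2 := by
      intro h
      rw [h, norm_zero] at hl
      exact Real.tendsto_exp_comp_nhds_zero.1 hl
    tfae_have 2 → 3 := fun h =>
      ⟨fun n => n, tendsto_natCast_atTop_atTop, h.comp tendsto_natCast_atTop_atTop⟩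
    tfae_have 3 → 1 := by
      rintro ⟨t, ht, h⟩
      have h5 := Real.tendsto_exp_comp_nhds_zero.2 h
      have h6 := tendsto_nhds_unique (hl.comp ht) h5
      exact norm_eq_zero.1 h6
    tfae_finish
  have htfae : ∀ D : ℕ, 0 < D → List.TFAE [
      ∃ a : ℤ, D * (F 1 / Ω) = a,
      Tendsto (fun T : ℝ => distInt (D * (Complex.exp (S A γ T) / Ω))) atTop (𝓝 0),
      ∃ t : ℕ → ℝ, Tendsto t atTop atTop ∧
        Tendsto (fun i => distInt (D * (Complex.exp (S A γ (t i)) / Ω))) atTop (𝓝 0)] := by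
    intro D _
    have h1 := Pool.Agent.Q45.ML.closed_tfae closed_int (Set.range_nonempty _) (hlim D)
    have e : (D * (F 1 / Ω) ∈ Set.range fun a : ℤ => (a : ℂ)) ↔ ∃ a : ℤ, D * (F 1 / Ω) = a := by
      simp only [Set.mem_range, eq_comm]
    rw [e] at h1
    exact h1
  refine ⟨fun T hT => Pool.Agent.Q45.ML.ecTerm_summable A γ hT, hvalS, hvan, htfae, ?_⟩
  have hv : F 1 = 0 ↔ Tendsto (fun T : ℝ => (S A γ T).re) atTop atBot := hvan.out 0 1
  rw [← hv]
  refine and_congr_right fun _ => ?_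
  constructor
  · rintro ⟨x, hx⟩
    have hiff : (∃ a : ℤ, (x.den : ℂ) * (F 1 / Ω) = a) ↔ ∃ t : ℕ → ℝ, Tendsto t atTop atTop ∧
        Tendsto (fun i => distInt (x.den * (Complex.exp (S A γ (t i)) / Ω))) atTop (𝓝 0) :=
      (htfae x.den x.den_pos).out 0 2
    refine ⟨x.den, x.den_pos, hiff.1 ⟨x.num, ?_⟩⟩
    rw [hx, mul_div_cancel_right₀ _ hΩc]
    have : (x.den : ℚ) * x = x.num := by
      rw [mul_comm]; exact Rat.mul_den_eq_num x
    exact_mod_cast this
  · rintro ⟨D, hD, ht⟩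
    have hiff : (∃ a : ℤ, (D : ℂ) * (F 1 / Ω) = a) ↔ ∃ t : ℕ → ℝ, Tendsto t atTop atTop ∧
        Tendsto (fun i => distInt (D * (Complex.exp (S A γ (t i)) / Ω))) atTop (𝓝 0) :=
      (htfae D hD).out 0 2
    obtain ⟨a, ha⟩ := hiff.2 ht
    refine ⟨a / D, ?_⟩
    have hDc : (D : ℂ) ≠ 0 := by exact_mod_cast hD.ne'
    push_cast
    field_simp at ha ⊢
    linear_combination ha

end Pool.Agent.Results.MP_90f827_nt.CentralValueDenominators
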