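import Pool.Agent.Q5.NF.Osc
import Pool.Agent.Results.MP_1a91b9_nt.MeanSquareLeading

/-!
# Rationality of `L(1, A)/Ω(A)` over a number field and the distribution of the partial Euler products

`A : y² = x³ + a x + b` over the ring of integers of a number field `K`, and `F` is a continuation of its `L`-series
(the factors at `v ∣ 6Δ`, which are rational at `s = 1`, omitted). The theorem describes the error of the partial Euler
products at `s = 1` for a candidate `q Ω`, `q` rational, of the value `F(1)`.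
-/

set_option autoImplicit false

open MeasureTheory Filter Topology Set Complex NumberField IsDedekindDomain

namespace Pool.Agent.Results.MP_90f827_nt.LimitLaw

open Pool.Agent.Results.MP_ae0bd0_nt.MeanProduct (Tempered)
open Pool.Agent.Results.MP_1a91b9_nt.MeanSquareLeading (LeadingRH devStar)
open Pool.Agent.Q5.DC (HasLimitLaw LimitLaw)

/-- no zeros with `Re s > 1` -/
def RH (F : ℂ → ℂ) : Prop := ∀ s : ℂ, 1 < s.re → F s ≠ 0

/-- the order of vanishing at `1 + it` -/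
noncomputable def mult (F : ℂ → ℂ) (t : ℝ) : ℕ := (analyticOrderAt F (1 + t * I)).toNat

/-- `∫_e^X (log x · δ(x))² dx/x ≤ B log X` for some `B` and all large `X` -/
def BoundedMeanSquare (δ : ℝ → ℝ) : Prop := ∃ B : ℝ, ∀ᶠ X : ℝ in atTop,
  ∫ x in Real.exp 1..X, (Real.log x * δ x) ^ 2 / x ≤ B * Real.log X

/-- `(log X)⁻¹ ∫_e^X 1[W(x) > c] dx/x`, the logarithmic share of the `x ≤ X` with `W(x) > c` -/
noncomputable def share (W : ℝ → ℝ) (c X : ℝ) : ℝ :=
  (∫ x in Real.exp 1..X, (if c < W x then (1 : ℝ) else 0) / x) / Real.log X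

/-- `RH`, and `B ≥ m_t/|t|` for all `t ≠ 0` if `ρ`, `A` are the order and the leading coefficient at `1` -/
def Conclusion (F : ℂ → ℂ) (ρ A B : ℝ) : Prop :=
  RH F ∧ (LeadingRH F ρ A → ∀ t : ℝ, t ≠ 0 → (mult F t : ℝ) / |t| ≤ B)

/-- Under `LeadingRH`, for `t ≠ 0` and `0 ≤ c < m_t/(2|t|)` the sets `{x : log x · δ(x) > c}` and
`{x : log x · δ(x) < -c}` have lower logarithmic density at least `(m_t/|t| - 2c)²/(4V)`, `V = ∑ m_t²/t²`. -/
def Densities (F : ℂ → ℂ) (ρ A : ℝ) (δ : ℝ → ℝ) : Prop :=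
  LeadingRH F ρ A → ∀ V : ℝ, HasSum (fun t : ℝ => ((mult F t : ℝ) / t) ^ 2) V →
    ∀ t c : ℝ, t ≠ 0 → 0 ≤ c → 2 * c < (mult F t : ℝ) / |t| → ∀ ε : ℝ, 0 < ε → ∀ᶠ X : ℝ in atTop,
      ((mult F t : ℝ) / |t| - 2 * c) ^ 2 / (4 * V) - ε ≤ share (fun x => Real.log x * δ x) c X ∧
      ((mult F t : ℝ) / |t| - 2 * c) ^ 2 / (4 * V) - ε ≤ share (fun x => -(Real.log x * δ x)) c X

/-- the zeros `1 + it`, `t > 0`, are simple, and their ordinates are linearly independent over `ℚ` -/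
def SimpleIndependent (F : ℂ → ℂ) : Prop :=
  (∀ t : ℝ, 0 < t → mult F t ≤ 1) ∧ LinearIndepOn ℚ id {t : ℝ | 0 < t ∧ mult F t ≠ 0}

/-- the Bessel function `J₀(x) = ∑ (-(x/2)²)^k/(k!)²` -/
noncomputable def J0 (x : ℝ) : ℝ := ∑' k : ℕ, (-(x / 2) ^ 2) ^ k / ((k.factorial : ℝ) ^ 2)

/-- **The random model** for `E(x) = log x · δ(x)`: for all `h_j ≥ 0` and real `ξ_j` the means of
`exp (i ∑ ξ_j E(x e^{h_j}))` tend to the product over `t > 0` of `J₀(2 |∑ ξ_j e^{i t h_j}|/t)^(m_t)`. -/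
def Follows (F : ℂ → ℂ) (δ : ℝ → ℝ) : Prop :=
  ∀ (k : ℕ) (h ξ : Fin k → ℝ), (∀ j, 0 ≤ h j) →
    ∃ L : ℂ, HasProd (fun t : ℝ =>
        (((if 0 < t then J0 (2 * (‖∑ j, (ξ j : ℂ) * exp ((t * h j : ℝ) * I)‖ / t)) ^ mult F t else 1) : ℝ) : ℂ)) L ∧
      Tendsto (fun X : ℝ => (∫ x in Real.exp 1..X, exp (((∑ j, ξ j *
        (Real.log (x * Real.exp (h j)) * δ (x * Real.exp (h j))) : ℝ) : ℂ) * I) / x) / Real.log X) atTop (𝓝 L)

/-! ### proofs -/

open Pool.Agent.Q5.LI (fac kf bz bt RandomModel li_iff)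
open Pool.Agent.Results.MP_ae0bd0_nt.MeanProduct (NN data dev_eq zeros_shift)
open Pool.Agent.Results.MP_1a91b9_nt.MeanSquareLeading (lim_shift)
open Pool.Agent.TH942.ES (alV)
open Pool.Agent.TH270.MS (Mc DvR BM)
open Pool.Agent.Q5.MS (bm_dvR)
open Pool.Agent.Q5.BP (bm_log BSq)
open Pool.Agent.Q5.AP (Par cut cm par_of_cm)
open Pool.Agent.Q5.DC (law_tfae)

theorem follows_eq (F : ℂ → ℂ) (δ : ℝ → ℝ) :
    Follows F δ ↔ RandomModel (mult F) fun x => Real.log x * δ x := by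
  unfold Follows RandomModel
  refine forall_congr' fun k => forall_congr' fun h' => forall_congr' fun ξ => forall_congr' fun hh => ?_
  refine exists_congr fun L => ?_
  refine and_congr_left fun _ => ?_
  have e : ∀ t : ℝ, (if 0 < t then J0 (2 * (‖∑ j, (ξ j : ℂ) * exp ((t * h' j : ℝ) * I)‖ / t)) ^ mult F t else 1) =
      fac (mult F) (kf h' ξ t) t := by
    intro t
    unfold fac
    split_ifs with ht
    · congr 1
      unfold J0 bz bt kf
      refine tsum_congr fun k => ?_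
      rw [norm_div, Complex.norm_real, Real.norm_of_nonneg ht.le, mul_div_cancel_left₀ _ two_ne_zero]
    · rfl
  simp only [e]

variable {K : Type} [Field K] [NumberField K]

theorem lead_eq (F : ℂ → ℂ) (ρ A : ℝ) : LeadingRH F ρ A ↔ ((∀ s : ℂ, 0 < s.re → F (1 + s) ≠ 0) ∧
    ∃ m : ℤ, ρ = m ∧ Tendsto (fun s => F (1 + s) / s ^ m) (𝓝[≠] 0) (𝓝 (A : ℂ))) := by
  rw [zeros_shift]
  simp only [lim_shift]
  exact and_comm

theorem mu_eq (F : ℂ → ℂ) (t : ℝ) : Pool.Agent.Q5.BP.mu (fun s => F (1 + s)) t = mult F t := by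
  rw [Pool.Agent.Q5.BP.mu_shift F 1 t]
  rfl

theorem err {a b : 𝓞 K} {F : ℂ → ℂ} (hF : Tempered a b F) {ρ A : ℝ} (hA : 0 < A) :
    BM (fun x => Real.log x * devStar a b ρ A x) ∧
    (LeadingRH F ρ A ↔ BSq (devStar a b ρ A)) ∧
    (LeadingRH F ρ A → ∃ V : ℝ, HasSum (fun t : ℝ => ((mult F t : ℝ) / t) ^ 2) V ∧
      Par (fun u => (cut (fun x => Real.log x * devStar a b ρ A x) u : ℂ)) (cm (mult F)) V) ∧
    (∀ B : ℝ, (∀ᶠ y : ℝ in atTop, Real.log y * devStar a b ρ A y ≤ B) → Conclusion F ρ A B) ∧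
    (∀ B : ℝ, (∀ x : ℝ, 1 < x → F x ≠ 0) → (∀ᶠ y : ℝ in atTop, -B ≤ Real.log y * devStar a b ρ A y) →
      Conclusion F ρ A B) ∧
    Densities F ρ A (devStar a b ρ A) := by
  obtain ⟨G₀, k, κ, η, C, H⟩ := data hF
  have e : ∀ y : ℝ, Real.exp 1 ≤ y → devStar a b ρ A y = -DvR (NN a b) (alV a b) ρ A y :=
    fun y hy => dev_eq a b hA hy
  obtain ⟨t, f⟩ := Pool.Agent.Q5.BP.pack H ρ hA (lead_eq F ρ A) (mu_eq F) e
  have hW : BM fun x => Real.log x * devStar a b ρ A x := by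
    have h1 : BM fun x => Real.log x * ((-1) * DvR (NN a b) (alV a b) ρ A x) :=
      bm_log.mul ((BM.const (-1)).mul (bm_dvR H ρ A))
    refine Pool.Agent.Q5.OM.bm_congr h1 fun y hy => ?_
    rw [e y hy, neg_one_mul]
  have hcl : Tendsto (fun y : ℝ => Real.log y * -DvR (NN a b) (alV a b) ρ A y -
      Real.log y * devStar a b ρ A y) atTop (𝓝 0) := by
    refine tendsto_const_nhds.congr' ?_
    filter_upwards [eventually_ge_atTop (Real.exp 1)] with y hy
    rw [e y hy, sub_self]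
  obtain ⟨k1, k2, k3⟩ := Pool.Agent.Q5.OM.om_pack H ρ A (P := LeadingRH F ρ A) (m := mult F) hW hcl
    (fun h => (t.out 0 2).1 h) f
  refine ⟨hW, t.out 0 1, fun h => par_of_cm hW ((t.out 0 2).1 h) (f h), fun B hB => ?_, fun B hx hB => ?_, k3⟩
  · obtain ⟨h3, h4⟩ := k1 B hB
    exact ⟨(zeros_shift F).1 h3, h4⟩
  · obtain ⟨h3, h4⟩ := k2 B (fun x hx0 => by
      have := hx (1 + x) (by linarith)
      push_cast at this ⊢
      exact this) hB
    exact ⟨(zeros_shift F).1 h3, h4⟩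

/-- under RH the leading coefficient exists and is positive -/
theorem lead_exists {a b : 𝓞 K} {F : ℂ → ℂ} (hF : Tempered a b F) (h : RH F) :
    ∃ (e : ℤ) (A : ℝ), 0 < A ∧ Tendsto (fun s => F s / (s - 1) ^ e) (𝓝[≠] 1) (𝓝 (A : ℂ)) := by
  obtain ⟨G₀, k, κ, η, C, H⟩ := data hF
  obtain ⟨e, g, p, he, Q⟩ := H.cn
  have hz : ∀ s : ℂ, 0 < s.re → F (1 + s) ≠ 0 := (zeros_shift F).2 h
  have hord := (Pool.Agent.TH270.MS.mero_of Q.hg Q.hg0
    (Pool.Agent.TH270.MS.local_form H.hη H.hΨ Q.near)).2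
  have t1 := Pool.Agent.Q5.MS.order_real H (((p : ℤ) - k : ℤ) : ℝ)
  have e1 := t1.out 0 1
  obtain ⟨A, hA, h1⟩ := e1.1 ⟨hz, (p : ℤ) - k, rfl, hord⟩
  have t2 := Pool.Agent.Q5.MS.lead_real H (((p : ℤ) - k : ℤ) : ℝ) hA
  have e2 := t2.out 1 0
  obtain ⟨-, m, -, h3⟩ := e2.1 h1
  exact ⟨m, A, hA, (lim_shift F m A).1 h3⟩

/-- **Rationality of the central value and the distribution of the Euler products.** -/
theorem result (K : Type) [Field K] [NumberField K] (a b : 𝓞 K) (_hΔ : 4 * a ^ 3 + 27 * b ^ 2 ≠ 0)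
    (F : ℂ → ℂ) (hF : Tempered a b F) :
    (∀ ρ A : ℝ, 0 < A →
      List.TFAE [LeadingRH F ρ A, BoundedMeanSquare (devStar a b ρ A), HasLimitLaw (devStar a b ρ A),
        LimitLaw (mult F) (devStar a b ρ A)] ∧
      (∀ B : ℝ, (∀ᶠ x : ℝ in atTop, Real.log x * devStar a b ρ A x ≤ B) → Conclusion F ρ A B) ∧
      (∀ B : ℝ, (∀ x : ℝ, 1 < x → F x ≠ 0) → (∀ᶠ x : ℝ in atTop, -B ≤ Real.log x * devStar a b ρ A x) →
        Conclusion F ρ A B) ∧
      Densities F ρ A (devStar a b ρ A) ∧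
      (BoundedMeanSquare (devStar a b ρ A) ∧ Follows F (devStar a b ρ A) ↔
        LeadingRH F ρ A ∧ SimpleIndependent F)) ∧
    (AnalyticAt ℂ F 1 → ∀ Ω : ℝ, 0 < Ω →
      (RH F ∧ F 1 ≠ 0 ∧ (∃ q : ℚ, F 1 = q * Ω) ↔ ∃ q : ℚ, 0 < q ∧ HasLimitLaw (devStar a b 0 (q * Ω)))) := by
  have main : ∀ ρ A : ℝ, 0 < A →
      List.TFAE [LeadingRH F ρ A, BoundedMeanSquare (devStar a b ρ A), HasLimitLaw (devStar a b ρ A),
        LimitLaw (mult F) (devStar a b ρ A)] := by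
    intro ρ A hA
    obtain ⟨h1, h2, h3, -⟩ := err hF (ρ := ρ) hA
    exact law_tfae h1 h2 h3
  refine ⟨fun ρ A hA => ?_, fun hF1 Ω hΩ => ?_⟩
  · obtain ⟨hW, -, h3, k1, k2, k3⟩ := err hF (ρ := ρ) hA
    refine ⟨main ρ A hA, k1, k2, k3, ?_⟩
    have h1 : LeadingRH F ρ A ↔ BoundedMeanSquare (devStar a b ρ A) := (main ρ A hA).out 0 1
    rw [h1]
    refine and_congr_right fun hB => ?_
    obtain ⟨V, -, P⟩ := h3 (h1.2 hB)
    rw [follows_eq]
    exact (li_iff hW P).symm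
  · have hc : Tendsto F (𝓝[≠] (1 : ℂ)) (𝓝 (F 1)) := hF1.continuousAt.tendsto.mono_left nhdsWithin_le_nhds
    have key : ∀ A : ℝ, 0 < A → (HasLimitLaw (devStar a b 0 A) ↔ RH F ∧ F 1 = A) := by
      intro A hA
      have h1 : LeadingRH F 0 A ↔ HasLimitLaw (devStar a b 0 A) := (main 0 A hA).out 0 2
      rw [← h1]
      constructor
      · rintro ⟨⟨m, hm, h2⟩, h3⟩
        have hm0 : m = 0 := by exact_mod_cast hm.symm
        rw [hm0] at h2
        simp only [zpow_zero, div_one] at h2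
        exact ⟨h3, tendsto_nhds_unique hc h2⟩
      · rintro ⟨h2, h3⟩
        refine ⟨⟨0, by simp, ?_⟩, h2⟩
        simp only [zpow_zero, div_one]
        rw [← h3]
        exact hc
    constructor
    · rintro ⟨h1, h2, q, hq⟩
      obtain ⟨e, A, hA, h3⟩ := lead_exists hF h1
      have he0 : 0 ≤ e := Pool.Agent.Q5.DC.int_nonneg hF1 (by exact_mod_cast hA.ne') h3
      obtain ⟨n, rfl⟩ := Int.eq_ofNat_of_zero_le he0
      have hn : n = 0 := by
        by_contra hn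
        have h4 : Tendsto (fun s : ℂ => (s - 1) ^ n) (𝓝[≠] (1 : ℂ)) (𝓝 0) := by
          have h5 : Continuous fun s : ℂ => (s - 1) ^ n := by fun_prop
          have h6 := h5.tendsto 1
          rw [sub_self, zero_pow hn] at h6
          exact h6.mono_left nhdsWithin_le_nhds
        have h7 := h3.mul h4
        rw [mul_zero] at h7
        refine h2 (tendsto_nhds_unique hc (h7.congr' ?_))
        filter_upwards [self_mem_nhdsWithin] with s hs
        have hs0 : (s - 1) ^ n ≠ 0 := pow_ne_zero _ (sub_ne_zero.2 hs)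
        rw [zpow_natCast]
        exact div_mul_cancel₀ _ hs0
      rw [hn] at h3
      simp only [Nat.cast_zero, zpow_zero, div_one] at h3
      have h4 : F 1 = A := tendsto_nhds_unique hc h3
      have h5 : (q : ℝ) * Ω = A := by
        have : ((q * Ω : ℝ) : ℂ) = (A : ℂ) := by
          rw [← h4, hq]
          push_cast
          rfl
        exact_mod_cast this
      have hq0 : 0 < q := by
        have h6 : 0 < (q : ℝ) := by
          by_contra h7
          have h8 : (q : ℝ) * Ω ≤ 0 := mul_nonpos_of_nonpos_of_nonneg (not_lt.1 h7) hΩ.le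
          linarith
        exact_mod_cast h6
      refine ⟨q, hq0, (key _ (by rw [h5]; exact hA)).2 ⟨h1, ?_⟩⟩
      rw [hq]
      push_cast
      rfl
    · rintro ⟨q, hq0, h1⟩
      have hqR : 0 < (q : ℝ) * Ω := mul_pos (by exact_mod_cast hq0) hΩ
      obtain ⟨h2, h3⟩ := (key _ hqR).1 h1
      refine ⟨h2, ?_, q, ?_⟩
      · rw [h3]
        exact_mod_cast hqR.ne'
      · rw [h3]
        push_cast
        rfl

end Pool.Agent.Results.MP_90f827_nt.LimitLaw
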