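import Mathlib
import Pool.Agent.Q18.P.Val

/-!
# Rationality of `L(1, E)/Ω(E)` and Euler products on one sequence of windows

Let `E : y² = x³ + a x + b` be an elliptic curve over a number field `K`, `a, b ∈ 𝓞_K`, `S` a finite set of places
containing those which divide `6 (4 a³ + 27 b²)`, and let `F` be a continuation of the incomplete `L`-function
`∏_{v ∉ S} (1 - a_v q_v^{-s} + q_v^{1-2s})⁻¹` of `E/K`. The missing Euler factors are nonzero rational numbers at `s = 1`,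
so that for a period `Ω > 0` (e.g. `|Ω(E)|` of the problem) the rationality of `L(1, E)/Ω` is that of `F(1)/Ω`. Let

`P*(y) = exp (- ∑_{v ∉ S, q_v^n ≤ y} (α_v^n + β_v^n)/(n q_v^n))`

be the partial Euler product at `s = 1` with a sharp cut-off. Fix `0 < δ < 1`; the windows are `[Y^(1-δ), Y]`.

(A) `F` is only assumed to be meromorphic at the points with `Re s > 1` and at `1`.
1. If for some rational `q > 0` and each `ε > 0` we have `∫ |log (q Ω P*(y))| dy/y ≤ ε log Y` over the windows of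
   arbitrarily large `Y` (one sequence, as sparse as we like), then `F` has neither zeros nor poles with `Re s > 1`, it
   has order `0` at `1`, and `lim_{s → 1} F(s) = ± q Ω`: the assertion of the problem and the Riemann hypothesis for `E/K`.
(B) `F` is holomorphic and of polynomial growth in a half plane `Re s > 1 - η` (as for modular `E/K`).
2. The Riemann hypothesis for `E/K`, `L(1, E) ≠ 0` and the assertion of the problem for `E/K` hold together if and only if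
   there is a rational `q > 0` with the property of 1.; equivalently, with the property for all large `Y`. The `q` is
   unique, it is `F(1)/Ω`.
3. More generally, for any set `X` of positive reals (e.g. the one number predicted by Birch and Swinnerton-Dyer, or
   rationals with given denominators): the Riemann hypothesis and `F(1) ∈ X` hold together if and only if
   `∫ |log (A P*(y))| dy/y ≤ ε log Y` for one `A ∈ X` over the windows of arbitrarily large `Y`, for each `ε > 0`.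
4. If `F(1) ≠ 0` and `A > |F(1)|`, there is a `β > 0` with `∫ max (log (A P*(y)), 0) dy/y > β log Y` over ALL windows with
   large `Y`.
-/

set_option autoImplicit false

namespace Pool.Agent.Results.MP_90f827_nt.RationalityWindows

open Filter Topology Set Complex NumberField IsDedekindDomain MeasureTheory
open Pool.Agent.Q18.P (NoZeros Order Holo MeanBound Free)
open Pool.Agent.Q18.P.EC (Good Euler productStar)

/-- `F` is meromorphic at every point with `Re s > 1` and at `1`. -/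
def Mero (F : ℂ → ℂ) : Prop := (∀ s : ℂ, 1 < s.re → MeromorphicAt F s) ∧ MeromorphicAt F ((1 : ℝ) : ℂ)

/-- `∫ |log (A P*(y))| dy/y ≤ ε log Y` over the window `[Y^(1-δ), Y]` -/
def Close (δ : ℝ) (P : ℝ → ℝ) (A ε Y : ℝ) : Prop := MeanBound δ (fun y => |Real.log (A * P y)|) ε Y

/-- **Rationality of central values, the Riemann hypothesis, and Euler products on one sequence of windows.** -/
theorem result (K : Type) [Field K] [NumberField K] (a b : 𝓞 K) (S : Finset (HeightOneSpectrum (𝓞 K)))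
    (hS : ∀ v, v ∉ S → Good a b v) (F : ℂ → ℂ) (hE : Euler S a b F) (δ : ℝ) (h0 : 0 < δ) (h1 : δ < 1)
    (Ω : ℝ) (hΩ : 0 < Ω) :
    -- (1) `F` meromorphic
    (Mero F → ∀ q : ℚ, 0 < q → (∀ ε : ℝ, 0 < ε → ∃ᶠ Y : ℝ in atTop, Close δ (productStar S a b) (q * Ω) ε Y) →
      Free 1 F ∧ Order 1 F 0 ∧ ∀ l : ℂ, Tendsto F (𝓝[≠] (1 : ℂ)) (𝓝 l) → ‖l‖ = q * Ω) ∧
    (Holo 1 F →
      -- (2) rationality
      (List.TFAE [
        NoZeros 1 F ∧ ∃ q : ℚ, 0 < q ∧ F 1 = ((q * Ω : ℝ) : ℂ),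
        ∃ q : ℚ, 0 < q ∧ ∀ ε : ℝ, 0 < ε → ∃ᶠ Y : ℝ in atTop, Close δ (productStar S a b) (q * Ω) ε Y,
        ∃ q : ℚ, 0 < q ∧ ∀ ε : ℝ, 0 < ε → ∀ᶠ Y : ℝ in atTop, Close δ (productStar S a b) (q * Ω) ε Y] ∧
      ∀ q : ℚ, 0 < q → (∀ ε : ℝ, 0 < ε → ∃ᶠ Y : ℝ in atTop, Close δ (productStar S a b) (q * Ω) ε Y) →
        F 1 = ((q * Ω : ℝ) : ℂ)) ∧
      -- (3) values in a set
      (∀ X : Set ℝ, (∀ A ∈ X, 0 < A) → List.TFAE [
        NoZeros 1 F ∧ ∃ A ∈ X, F 1 = (A : ℂ),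
        ∃ A ∈ X, ∀ ε : ℝ, 0 < ε → ∃ᶠ Y : ℝ in atTop, Close δ (productStar S a b) A ε Y,
        ∃ A ∈ X, ∀ ε : ℝ, 0 < ε → ∀ᶠ Y : ℝ in atTop, Close δ (productStar S a b) A ε Y]) ∧
      -- (4) in every window
      (F 1 ≠ 0 → ∀ A : ℝ, ‖F 1‖ < A → ∃ β : ℝ, 0 < β ∧
        ∀ᶠ Y : ℝ in atTop, ¬ MeanBound δ (fun y => max (Real.log (A * productStar S a b y)) 0) β Y)) := by
  have hP := Pool.Agent.Q18.P.EC.pure (a := a) (b := b) hS
  have hE' := Pool.Agent.Q18.P.EC.euler hS hE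
  rw [Pool.Agent.Q18.P.EC.star_eq hS]
  set α := Pool.Agent.Q18.P.EC.al a b with hα
  have hr : ∀ (A : ℝ), (fun y => |Pool.Agent.Q18.P.ratio (Pool.Agent.Q18.P.productStar 1 S α) A ((0 : ℤ) : ℝ) y|) =
      fun y => |Real.log (A * Pool.Agent.Q18.P.productStar 1 S α y)| := by
    intro A
    funext y
    rw [Pool.Agent.Q18.P.ratio_zero]
  refine ⟨fun hm q hq hB => ?_, fun hH => ?_⟩
  · have hA : (0 : ℝ) < q * Ω := mul_pos (by exact_mod_cast hq) hΩ
    have hB' : ∀ ε : ℝ, 0 < ε → ∃ᶠ Y : ℝ in atTop, MeanBound δ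
        (fun y => |Pool.Agent.Q18.P.ratio (Pool.Agent.Q18.P.productStar 1 S α) (q * Ω) ((0 : ℤ) : ℝ) y|) ε Y := by
      rw [hr]
      exact hB
    obtain ⟨f1, m', f2, f3, f4⟩ :=
      Pool.Agent.Q18.P.lim Pool.Agent.Q18.P.EC.one_c hP ⟨hm.1, hm.2, hE'⟩ h0 h1 hA hB'
    have e1 : (0 : ℤ) = m' := by exact_mod_cast f2
    rw [← e1] at f3 f4
    refine ⟨f1, f3, fun l hl => f4 l ⟨f3, ?_⟩⟩
    rw [Complex.ofReal_one]
    exact hl.congr fun s => by simp
  have hv : ∀ a : ℂ, Pool.Agent.Q18.P.IsLeading 1 F 0 a ↔ F 1 ≠ 0 ∧ F 1 = a := by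
    intro a
    have := Pool.Agent.Q18.P.lead_zero (a := a) hH
    rwa [Complex.ofReal_one] at this
  have hset : ∀ X : Set ℝ, (∀ A ∈ X, 0 < A) → List.TFAE [
        NoZeros 1 F ∧ ∃ A ∈ X, F 1 = (A : ℂ),
        ∃ A ∈ X, ∀ ε : ℝ, 0 < ε → ∃ᶠ Y : ℝ in atTop, Close δ (Pool.Agent.Q18.P.productStar 1 S α) A ε Y,
        ∃ A ∈ X, ∀ ε : ℝ, 0 < ε → ∀ᶠ Y : ℝ in atTop, Close δ (Pool.Agent.Q18.P.productStar 1 S α) A ε Y] := by
    intro X hX
    have t := Pool.Agent.Q18.P.lead_mem Pool.Agent.Q18.P.EC.one_c hP hH hE' h0 h1 0 X hX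
    have e1 : (NoZeros 1 F ∧ ∃ A ∈ X, Pool.Agent.Q18.P.IsLeading 1 F 0 A) ↔
        (NoZeros 1 F ∧ ∃ A ∈ X, F 1 = (A : ℂ)) := by
      refine and_congr_right fun _ => exists_congr fun A => and_congr_right fun hA => ?_
      rw [hv]
      refine ⟨fun h => h.2, fun h => ⟨?_, h⟩⟩
      rw [h]
      exact_mod_cast (hX A hA).ne'
    rw [e1] at t
    simp only [hr] at t
    exact t
  refine ⟨⟨?_, fun q hq h => ?_⟩, hset, fun hne A hA => ?_⟩
  · have t := hset {A : ℝ | ∃ q : ℚ, 0 < q ∧ A = q * Ω} (by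
      rintro A ⟨q, hq, rfl⟩
      exact mul_pos (by exact_mod_cast hq) hΩ)
    have e1 : ∀ p : ℝ → Prop, (∃ A ∈ {A : ℝ | ∃ q : ℚ, 0 < q ∧ A = q * Ω}, p A) ↔ ∃ q : ℚ, 0 < q ∧ p (q * Ω) := by
      intro p
      constructor
      · rintro ⟨A, ⟨q, hq, rfl⟩, h⟩
        exact ⟨q, hq, h⟩
      · rintro ⟨q, hq, h⟩
        exact ⟨_, ⟨q, hq, rfl⟩, h⟩
    rw [e1, e1, e1] at t
    exact t
  · have t := hset {A : ℝ | A = q * Ω} (by
      rintro A rfl
      exact mul_pos (by exact_mod_cast hq) hΩ)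
    have t' : (NoZeros 1 F ∧ ∃ A ∈ {A : ℝ | A = q * Ω}, F 1 = (A : ℂ)) ↔ ∃ A ∈ {A : ℝ | A = q * Ω},
      ∀ ε : ℝ, 0 < ε → ∃ᶠ Y : ℝ in atTop, Close δ (Pool.Agent.Q18.P.productStar 1 S α) A ε Y := t.out 0 1
    obtain ⟨-, A, hA, hv2⟩ := t'.2 ⟨_, rfl, h⟩
    rw [hv2, show A = q * Ω from hA]
  · have L := Pool.Agent.Q18.P.laws Pool.Agent.Q18.P.EC.one_c hP.le hH hE' h0 h1
    have t := L.omega 0 (F 1) ((hv _).2 ⟨hne, rfl⟩) A hA
    simp only [Pool.Agent.Q18.P.ratio_zero] at t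
    exact t

end Pool.Agent.Results.MP_90f827_nt.RationalityWindows
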